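import Pool.Agent.Helper97.Nag.Goals1
import Pool.Agent.Helper94.Tate.DRP
import Pool.Agent.Helper18.Nag.DRPK

/-!
# Project NAGATA, packet NAG1-DRPV
-/

set_option autoImplicit false

noncomputable section

namespace Pool.Agent.Helper8.Nag.DRPV

open Module Pool.Agent.Helper97.Tate Pool.Agent.Helper97.Nag MvPolynomial
open Pool.Agent.Helper94.Tate.DRP (hc_mul hom_of_mul deg_of_mul)
open Pool.Agent.Helper18.Nag.DRPK (mem_FmK)

variable {K : Type} [Field K]

theorem mem_WKV {ι : Type} {P : ι → Fin 3 → K} {μ : ι → ℕ} {d k j : ℕ}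
    {z : MvPolynomial (Fin 3) K} :
    z ∈ WKV P μ d k j ↔ z ∈ Fm K ((d : ℤ) - k * j) ∧ ∀ i, z ∈ Van (P i) (μ i - j) := by
  rw [WKV, Submodule.mem_inf, Submodule.mem_iInf]

theorem t (hA : S_VAA) : S_DRPV := by
  intro K _ ι _ g P μ d k hk hg0 hgk h9
  have hpow : ∀ (Q : Fin 3 → K) (i : ℕ), g ∈ Van Q 1 → g ^ i ∈ Van Q i := by
    intro Q i hQ
    induction i with
    | zero =>
      rw [pow_zero]
      exact (hA K Q).2.2.2 1
    | succ i ih =>
      rw [pow_succ]
      exact (hA K Q).1 i 1 _ _ ih hQ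
  refine ⟨?_, ?_, ?_, ?_⟩
  · intro j i z hz
    obtain ⟨h1, h2⟩ := mem_WKV.1 hz
    refine mem_WKV.2 ⟨?_, ?_⟩
    · rcases mem_FmK.1 h1 with h4 | ⟨h4, h5⟩
      · rw [h4, mul_zero]
        exact Submodule.zero_mem _
      · rw [mem_FmK]
        right
        have hd : k * (j + i) = k * j + k * i := Nat.mul_add k j i
        refine ⟨by omega, ?_⟩
        have h6 := (hgk.pow i).mul h5
        have e : k * i + (d - k * (j + i)) = d - k * j := by omega
        rw [e] at h6
        exact h6
    · intro l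
      have h4 := (hA K (P l)).1 i (μ l - (j + i)) _ _ (hpow (P l) i (h9 l).1) (h2 l)
      exact (hA K (P l)).2.2.1 _ _ (by omega) h4
  · intro j z hz
    obtain ⟨h1, h2⟩ := mem_WKV.1 hz
    refine mem_WKV.2 ⟨?_, ?_⟩
    · by_cases hz0 : z = 0
      · rw [hz0]
        exact Submodule.zero_mem _
      · rcases mem_FmK.1 h1 with h4 | ⟨h4, h5⟩
        · exact absurd (mul_eq_zero.1 h4) (by tauto)
        · have h6 := deg_of_mul hgk (mul_ne_zero hg0 hz0) h5
          rw [mem_FmK]
          right
          have hd : k * (j + 1) = k * j + k := Nat.mul_succ k j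
          refine ⟨by omega, hom_of_mul hgk hg0 ?_⟩
          have e : k + (d - k * (j + 1)) = d - k * j := by omega
          rw [e]
          exact h5
    · intro l
      rcases Nat.eq_zero_or_pos (μ l - j) with h4 | h4
      · have e : μ l - (j + 1) = 0 := by omega
        rw [e]
        exact (hA K (P l)).2.2.2 z
      · apply (hA K (P l)).2.1 1 (μ l - (j + 1)) g z (h9 l).1 (h9 l).2
        have e : 1 + (μ l - (j + 1)) = μ l - j := by omega
        rw [e]
        exact h2 l
  · intro j hj
    rw [eq_bot_iff]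
    intro z hz
    obtain ⟨h1, -⟩ := mem_WKV.1 hz
    rcases mem_FmK.1 h1 with h4 | ⟨h4, -⟩
    · rw [h4]
      exact Submodule.zero_mem _
    · omega
  · intro j
    have h1 : WKV P μ d k j ≤ restrictTotalDegree (Fin 3) K d := by
      intro z hz
      rw [mem_restrictTotalDegree]
      obtain ⟨h1, -⟩ := mem_WKV.1 hz
      rcases mem_FmK.1 h1 with h4 | ⟨h4, h5⟩
      · rw [h4, totalDegree_zero]
        exact Nat.zero_le _
      · exact h5.totalDegree_le.trans (Nat.sub_le _ _)
    exact Submodule.finiteDimensional_of_le h1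

end Pool.Agent.Helper8.Nag.DRPV
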