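import Pool.Agent.Helper97.Nag.Goals

/-!
# Packet NAG-TRI (MP_d3128a_ag)
-/

set_option autoImplicit false

noncomputable section

namespace Pool.Agent.Helper8.Nag.TRI

open Pool.Agent.Helper97.Nag

open Pool.Agent.Helper97.Tate (Indep)

theorem t : S_TRI := by
  intro M S c hS a ha
  have hinj : Function.Injective (fun q : ℤ × ℤ => (q.1, q.2 + c)) := by
    rintro ⟨x, y⟩ ⟨x', y'⟩ h
    simp only [Prod.mk.injEq] at h
    ext
    · exact h.1
    · have := h.2
      simpa using this
  have h1 := hS (fun q => a (q.1, q.2 + c)) ?_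
  · intro p hp
    obtain ⟨q, hq, rfl⟩ := Finset.mem_image.mp hp
    exact h1 q hq
  · intro α β hαβ
    have h2 : ∀ p ∈ S, a (p.1, p.2 + c) * (((Ring.choose p.1 β : ℤ) : ℚ) * ((Ring.choose p.2 α : ℤ) : ℚ)) =
        ∑ ij ∈ Finset.HasAntidiagonal.antidiagonal α, ((Ring.choose (-c) ij.2 : ℤ) : ℚ) *
          (a (p.1, p.2 + c) * (((Ring.choose p.1 β : ℤ) : ℚ) * ((Ring.choose (p.2 + c) ij.1 : ℤ) : ℚ))) := by
      intro p _
      have e : Ring.choose p.2 α = ∑ ij ∈ Finset.HasAntidiagonal.antidiagonal α,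
          Ring.choose (p.2 + c) ij.1 * Ring.choose (-c) ij.2 := by
        rw [← Ring.add_choose_eq α (Commute.all _ _), add_neg_cancel_right]
      rw [e]
      push_cast
      rw [Finset.mul_sum, Finset.mul_sum]
      exact Finset.sum_congr rfl fun _ _ => by ring
    rw [Finset.sum_congr rfl h2, Finset.sum_comm]
    refine Finset.sum_eq_zero fun ij hij => ?_
    rw [← Finset.mul_sum]
    have h3 := ha ij.1 β (by
      have := Finset.HasAntidiagonal.mem_antidiagonal.mp hij
      omega)
    rw [Finset.sum_image (fun x _ y _ h => hinj h)] at h3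
    rw [h3, mul_zero]

end Pool.Agent.Helper8.Nag.TRI
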